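import Pool.Agent.R466.PD.Main2
import Pool.Agent.R466.PD.B
import Pool.Agent.R466.PD.R

/-!
# MP_def192_nt, Q1: the answer is YES

For all real `0 ≤ σ₁ < σ₂ ≤ 1` there is `n₀` such that `F(f_{σ₁}, n) > F(f_{σ₂}, n)` for every
`n > n₀`, where `F(f, n)` is the largest weighted density of a primitive subset of `[n]`.

Definitions (in `Pool/Agent/R466/PD/Defs.lean` and `Pool/Agent/R466/PD/Main.lean`):
* `Prim A` : no element of `A` divides a different element of `A`;
* `S f A = ∑ a ∈ A, f a`, `dens f A n = S f A / S f [n]`;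
* `F f n` : the maximum of `dens f A n` over the primitive sets `A ⊆ [n]`;
* `wt σ m = m ^ (-σ)`.

Proof: Abel summation writes the `σ₂`-density of `A` as an average over `t ≤ n` of the
`σ₁`-densities of `A ∩ [t]`.  A scaling lemma (`stmtR`) shows that these are at most
`F(f_{σ₁}, n) + η` for `n / K ≤ t ≤ n`, and a window version of Behrend's theorem (`stmtB`) shows
that they cannot all be close to this bound.
-/

namespace Pool.Agent.Results.MP_def192_nt.LargerExponentSmallerDensity

open Pool.Agent.R466.PD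

/-- **Q1 of MP_def192_nt is true**: for all `0 ≤ σ₁ < σ₂ ≤ 1` there is `n₀` such that
`F(f_{σ₁}, n) > F(f_{σ₂}, n)` for every `n > n₀`. -/
theorem result : ∀ σ₁ σ₂ : ℝ, 0 ≤ σ₁ → σ₁ < σ₂ → σ₂ ≤ 1 →
    ∃ n₀ : ℕ, ∀ n : ℕ, n > n₀ → F (wt σ₁) n > F (wt σ₂) n :=
  main stmtB stmtR

end Pool.Agent.Results.MP_def192_nt.LargerExponentSmallerDensity
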